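import Pool.Agent.Y299.Forti.CaseC

set_option autoImplicit false

namespace Pool.Agent.Results.MP_12983e_an.Classification

open Pool.Agent.Y299.Forti

/-- positive side is of type P, the other side arbitrary -/
theorem posP {f : ℝ → ℝ} (hf : Continuous f) (he : ∀ x, f (x + f x) = f x + f (f x))
    {δ : ℝ} (hδ : 0 < δ) (hpos : ∀ x, 0 < x → x < δ → 0 < f x) :
    ∃ a b : ℝ, 0 ≤ a ∧ 0 ≤ b ∧ (∀ x, 0 ≤ x → f x = a * x) ∧ ∀ x, x ≤ 0 → f x = b * x := by
  have h0 := f_zero he
  obtain ⟨a, ha, hfa⟩ := typeI hf he (L1 hf he hδ hpos)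
  have hmc := mir_cont hf
  have hme : ∀ x, mir f (x + mir f x) = mir f x + mir f (mir f x) := mir_eq he
  have hm3 : ∀ x, 0 ≤ x → 0 ≤ mir f x := by
    refine L3 hme ha.le fun x hx => ?_
    unfold mir
    rw [hfa (-x) (by linarith)]
    ring
  rcases trichotomy hmc with hz | ⟨δ', hδ', h⟩ | ⟨δ', hδ', h⟩
  · refine ⟨a, 0, ha.le, le_rfl, hfa, fun x hx => ?_⟩
    have h1 : mir f (-x) = 0 := by
      rcases eq_or_lt_of_le (hm3 (-x) (by linarith)) with h | h
      · exact h.symm
      · exact L2 hmc hme hz h (by linarith) le_rfl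
    unfold mir at h1
    rw [neg_neg] at h1
    linarith
  · obtain ⟨b, hb, hfb⟩ := typeI hmc hme (L1 hmc hme hδ' h)
    refine ⟨a, b, ha.le, hb.le, hfa, fun x hx => ?_⟩
    have h1 := hfb (-x) (by linarith)
    unfold mir at h1
    rw [neg_neg] at h1
    linarith
  · exfalso
    have h1 := h (δ' / 2) (by linarith) (by linarith)
    have h2 := hm3 (δ' / 2) (by linarith)
    linarith

/-- swapping the two sides -/
theorem swap {f : ℝ → ℝ} (h : ∃ a b : ℝ, 0 ≤ a ∧ 0 ≤ b ∧ (∀ x, 0 ≤ x → mir f x = a * x) ∧
      ∀ x, x ≤ 0 → mir f x = b * x) :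
    ∃ a b : ℝ, 0 ≤ a ∧ 0 ≤ b ∧ (∀ x, 0 ≤ x → f x = a * x) ∧ ∀ x, x ≤ 0 → f x = b * x := by
  obtain ⟨a, b, ha, hb, h1, h2⟩ := h
  refine ⟨b, a, hb, ha, fun x hx => ?_, fun x hx => ?_⟩
  · have h3 := h2 (-x) (by linarith)
    unfold mir at h3
    rw [neg_neg] at h3
    linarith
  · have h3 := h1 (-x) (by linarith)
    unfold mir at h3
    rw [neg_neg] at h3
    linarith

/-- If zeros accumulate on the right and `f` is positive somewhere on the left then `f ≤ 0` on
the left, a contradiction. -/
theorem Z_left {f : ℝ → ℝ} (hf : Continuous f) (he : ∀ x, f (x + f x) = f x + f (f x))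
    (hz : Zacc f) {x : ℝ} (hx : x ≤ 0) : f x ≤ 0 := by
  by_contra hc
  push Not at hc
  have h1 : ∀ y, 0 ≤ y → f y = 0 := fun y hy => L2 hf he hz hc hy (by linarith)
  have hme : ∀ x, mir f (x + mir f x) = mir f x + mir f (mir f x) := mir_eq he
  have h2 : ∀ x, 0 ≤ x → 0 ≤ mir f x := by
    refine L3 hme le_rfl fun x hx => ?_
    unfold mir
    rw [h1 (-x) (by linarith)]
    ring
  have h3 := h2 (-x) (by linarith)
  unfold mir at h3
  rw [neg_neg] at h3
  linarith

/-- The continuous solutions of `f (x + f x) = f x + f (f x)` on the real line are exactly the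
linear maps and the maps equal to `a x` for `x ≥ 0` and `b x` for `x ≤ 0` with `a, b ≥ 0`. -/
theorem result (f : ℝ → ℝ) (hf : Continuous f) :
    (∀ x, f (x + f x) = f x + f (f x)) ↔
      (∃ c : ℝ, ∀ x, f x = c * x) ∨
      (∃ a b : ℝ, 0 ≤ a ∧ 0 ≤ b ∧ (∀ x, 0 ≤ x → f x = a * x) ∧ ∀ x, x ≤ 0 → f x = b * x) := by
  constructor
  · intro he
    have h0 := f_zero he
    have hmc := mir_cont hf
    have hme : ∀ x, mir f (x + mir f x) = mir f x + mir f (mir f x) := mir_eq he
    rcases trichotomy hf with hz | ⟨δ, hδ, h⟩ | ⟨δ, hδ, h⟩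
    · rcases trichotomy hmc with hz' | ⟨δ', hδ', h'⟩ | ⟨δ', hδ', h'⟩
      · -- both accumulate: `f = 0`
        left
        refine ⟨0, fun x => ?_⟩
        rw [zero_mul]
        have hle : ∀ x, f x ≤ 0 := by
          intro x
          rcases le_total x 0 with hx | hx
          · exact Z_left hf he hz hx
          · by_contra hc
            push Not at hc
            have := L2 hf he hz hc hx le_rfl
            linarith
        have hle' : ∀ x, mir f x ≤ 0 := by
          intro x
          rcases le_total x 0 with hx | hx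
          · exact Z_left hmc hme hz' hx
          · by_contra hc
            push Not at hc
            have := L2 hmc hme hz' hc hx le_rfl
            linarith
        have h1 := hle' (-x)
        unfold mir at h1
        rw [neg_neg] at h1
        linarith [hle x]
      · right
        exact swap (posP hmc hme hδ' h')
      · exfalso
        have h1 := h' (δ' / 2) (by linarith) (by linarith)
        have h2 := Z_left hf he hz (x := -(δ' / 2)) (by linarith)
        unfold mir at h1
        linarith
    · right
      exact posP hf he hδ h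
    · rcases trichotomy hmc with hz' | ⟨δ', hδ', h'⟩ | ⟨δ', hδ', h'⟩
      · exfalso
        have h1 := h (δ / 2) (by linarith) (by linarith)
        have h2 := Z_left hmc hme hz' (x := -(δ / 2)) (by linarith)
        unfold mir at h2
        rw [neg_neg] at h2
        linarith
      · right
        exact swap (posP hmc hme hδ' h')
      · left
        have hpos1 : ∀ x, 0 < x → f x < 0 := by
          refine L4 hf he (δ := min δ δ') (lt_min hδ hδ')
            (fun x hx hx' => h x hx (hx'.trans_le (min_le_left _ _))) fun x hx hx' => ?_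
          have h1 := h' (-x) (by linarith) (by linarith [min_le_right δ δ'])
          unfold mir at h1
          rw [neg_neg] at h1
          linarith
        have hpos2 : ∀ x, 0 < x → mir f x < 0 := by
          refine L4 hmc hme (δ := min δ δ') (lt_min hδ hδ')
            (fun x hx hx' => h' x hx (hx'.trans_le (min_le_right _ _))) fun x hx hx' => ?_
          have h1 := h (-x) (by linarith) (by linarith [min_le_left δ δ'])
          unfold mir
          linarith
        refine caseC hf he fun x hx => ?_
        rcases lt_or_gt_of_ne hx with hx0 | hx0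
        · have h1 := hpos2 (-x) (by linarith)
          unfold mir at h1
          rw [neg_neg] at h1
          exact mul_neg_of_neg_of_pos hx0 (by linarith)
        · exact mul_neg_of_pos_of_neg hx0 (hpos1 x hx0)
  · rintro (⟨c, h⟩ | ⟨a, b, ha, hb, h1, h2⟩) x
    · rw [h (x + f x), h (f x), h x]
      ring
    · rcases le_total 0 x with hx | hx
      · have i1 := mul_nonneg ha hx
        rw [h1 x hx, h1 (x + a * x) (by linarith), h1 (a * x) i1]
        ring
      · have i1 : b * x ≤ 0 := mul_nonpos_of_nonneg_of_nonpos hb hx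
        rw [h2 x hx, h2 (x + b * x) (by linarith), h2 (b * x) i1]
        ring

end Pool.Agent.Results.MP_12983e_an.Classification
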